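import Pool.Agent.H95.Bpb

set_option autoImplicit false
open Pool.Agent.H95.Bpb

theorem Pool.Agent.Results.MP_7e7193_an.Yes.result (X : Type) [NormedAddCommGroup X] [NormedSpace ℝ X]
    [CompleteSpace X] (ε : ℝ) (h0 : 0 < ε) (h2 : ε < 2) : Phi X ε ≤ ((min √(2 * ε) 1 : ℝ) : EReal) :=
  Pool.Agent.H95.Bpb.main ε h0 h2
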